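import Mathlib

/-!
# A flag-transitive point-imprimitive symmetric design outside the product construction

The complements of the planes of `PG(3,2)` form a symmetric `2-(15,8,4)` design.  The group
`ΓL(2,4)` acts on it flag-transitively and preserves the partition of the `15` points into the
five one-dimensional `𝔽₄`-subspaces.  We write the points as `ℤ/15` (the exponents of a primitive
element of `𝔽₁₆`), the blocks as the translates of
`D = {3, 6, 7, 9, 11, 12, 13, 14} = {i : Tr (αⁱ) = 1}`.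

In an output of the product construction with `v₀ v₁ = 15` and block size `8`, the block size
`k₀` of the resolvable design divides both `v₀ ∈ {3, 5}` and `8`, so it is `1` and the blocks of
the transversal design have size `8 ≤ r ≤ v₁ ≤ 5`, which is absurd.
-/

namespace Pool.Agent.Results.MP_14f8d9_co.NotFromProduct

/-- `𝓑` is a `2-(v, k, l)` design on the point set `X`. -/
def IsTwoDesign {X : Type} [Fintype X] [DecidableEq X] (𝓑 : Finset (Finset X))
    (v k l : ℕ) : Prop :=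
  Fintype.card X = v ∧ (∀ B ∈ 𝓑, B.card = k) ∧
    ∀ x y : X, x ≠ y → (𝓑.filter (fun B => x ∈ B ∧ y ∈ B)).card = l

/-- `g` is an automorphism of the design `𝓑`. -/
def IsAut {X : Type} [DecidableEq X] (𝓑 : Finset (Finset X)) (g : Equiv.Perm X) : Prop :=
  ∀ B : Finset X, B ∈ 𝓑 ↔ B.image g ∈ 𝓑

/-- `G` is transitive on the incident point-block pairs of `𝓑`. -/
def FlagTransitive {X : Type} [DecidableEq X] (𝓑 : Finset (Finset X))
    (G : Subgroup (Equiv.Perm X)) : Prop :=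
  ∀ x y : X, ∀ B ∈ 𝓑, ∀ C ∈ 𝓑, x ∈ B → y ∈ C → ∃ g ∈ G, g x = y ∧ B.image g = C

/-- `G` preserves a partition of the points (given as an equivalence relation) which is neither
the partition into singletons nor the one-part partition. -/
def PointImprimitive {X : Type} (G : Subgroup (Equiv.Perm X)) : Prop :=
  ∃ s : Setoid X, s ≠ ⊥ ∧ s ≠ ⊤ ∧ ∀ g ∈ G, ∀ x y : X, s.r x y ↔ s.r (g x) (g y)

/-- The input of the construction.  Block sets are given as indexed families (types `L₀`, `L₁`,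
`L₂` of blocks with their point sets), so repeated blocks are allowed. -/
structure Input where
  /-- points of `𝒟₀` -/
  Δ₀ : Type
  /-- points of `𝒟₁` -/
  Δ₁ : Type
  [fin₀ : Fintype Δ₀]
  [fin₁ : Fintype Δ₁]
  [dec₀ : DecidableEq Δ₀]
  [dec₁ : DecidableEq Δ₁]
  /-- blocks of `𝒟₀` -/
  L₀ : Type
  /-- blocks of `𝒟₁` -/
  L₁ : Type
  /-- blocks of `𝒟₂` -/
  L₂ : Type
  [finL₀ : Fintype L₀]
  [finL₁ : Fintype L₁]
  [finL₂ : Fintype L₂]
  [decL₀ : DecidableEq L₀]
  /-- the points of a block of `𝒟₀` -/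
  pts₀ : L₀ → Finset Δ₀
  /-- the points of a block of `𝒟₁` -/
  pts₁ : L₁ → Finset Δ₁
  /-- the points of a block of `𝒟₂` (they are blocks of `𝒟₀`) -/
  pts₂ : L₂ → Finset L₀
  /-- block size of `𝒟₀` -/
  k₀ : ℕ
  /-- pair index of `𝒟₀` -/
  lam₀ : ℕ
  /-- number of parallel classes of `𝒟₀` -/
  r : ℕ
  /-- number of blocks in a parallel class of `𝒟₀` -/
  s : ℕ
  /-- pair index of `𝒟₁` -/
  lam₁ : ℕ
  /-- block size of `𝒟₂` -/
  k₂ : ℕ
  /-- pair index of `𝒟₂` -/
  lam₂ : ℕ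
  /-- the parallel class of a block of `𝒟₀` -/
  cls : L₀ → Fin r
  /-- the bijections `ψ_β` from the parallel classes to `β` -/
  ψ : L₁ → Fin r → Δ₁
  card₀ : ∀ l, (pts₀ l).card = k₀
  pair₀ : ∀ x y, x ≠ y → (Finset.univ.filter (fun l => x ∈ pts₀ l ∧ y ∈ pts₀ l)).card = lam₀
  /-- every parallel class consists of `s` blocks -/
  class_card : ∀ c, (Finset.univ.filter (fun l => cls l = c)).card = s
  /-- the blocks of a parallel class partition the points -/
  class_part : ∀ c x, ∃! l, cls l = c ∧ x ∈ pts₀ l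
  card₁ : ∀ β, (pts₁ β).card = r
  pair₁ : ∀ x y, x ≠ y → (Finset.univ.filter (fun β => x ∈ pts₁ β ∧ y ∈ pts₁ β)).card = lam₁
  /-- `𝒟₁` is symmetric -/
  symm₁ : Fintype.card L₁ = Fintype.card Δ₁
  ψ_inj : ∀ β, Function.Injective (ψ β)
  ψ_range : ∀ β, Set.range (ψ β) = (pts₁ β : Set Δ₁)
  ψ_unique : ∀ c i, ∃! β, ψ β c = i
  card₂ : ∀ γ, (pts₂ γ).card = k₂
  k₂_le : k₂ ≤ r
  /-- blocks of `𝒟₂` meet each group in at most one point -/
  group₂ : ∀ γ, ∀ l ∈ pts₂ γ, ∀ l' ∈ pts₂ γ, cls l = cls l' → l = l'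
  pair₂ : ∀ l l', cls l ≠ cls l' →
    (Finset.univ.filter (fun γ => l ∈ pts₂ γ ∧ l' ∈ pts₂ γ)).card = lam₂

/-- The block `B_β(γ)` of the output: the union of the sets `ℓ × {ψ_β(class of ℓ)}` over the
points `ℓ` of `γ`. -/
def Input.block (I : Input) (β : I.L₁) (γ : I.L₂) : Set (I.Δ₀ × I.Δ₁) :=
  {p | p.2 ∈ I.pts₁ β ∧ ∃ l ∈ I.pts₂ γ, I.ψ β (I.cls l) = p.2 ∧ p.1 ∈ I.pts₀ l}

/-- `𝓑` is isomorphic to an output of the construction with `v₀ ≥ 2` and `v₁ ≥ 2`. -/
def Arises {X : Type} (𝓑 : Finset (Finset X)) : Prop :=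
  ∃ I : Input, 2 ≤ Nat.card I.Δ₀ ∧ 2 ≤ Nat.card I.Δ₁ ∧
    ∃ e : X ≃ I.Δ₀ × I.Δ₁,
      {S : Set (I.Δ₀ × I.Δ₁) | ∃ B ∈ 𝓑, S = e '' (B : Set X)} =
        {S | ∃ β γ, S = I.block β γ}

attribute [instance] Input.fin₀ Input.fin₁ Input.dec₀ Input.dec₁ Input.finL₀ Input.finL₁
  Input.finL₂ Input.decL₀

/-- the number of points of a block of the output -/
theorem Input.block_ncard (I : Input) (β : I.L₁) (γ : I.L₂) :
    (I.block β γ).ncard = I.k₂ * I.k₀ := by
  classical
  have h1 : I.block β γ =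
      (((I.pts₂ γ).biUnion fun l => (I.pts₀ l) ×ˢ {I.ψ β (I.cls l)} : Finset (I.Δ₀ × I.Δ₁)) :
        Set (I.Δ₀ × I.Δ₁)) := by
    ext ⟨x, j⟩
    simp only [Input.block, Set.mem_ofPred_eq, Finset.coe_biUnion, Set.mem_iUnion,
      Finset.coe_product, Finset.coe_singleton, Set.mem_prod, Finset.mem_coe,
      Set.mem_singleton_iff]
    constructor
    · rintro ⟨-, l, hl, h, hx⟩
      exact ⟨l, hl, hx, h.symm⟩
    · rintro ⟨l, hl, hx, h⟩
      refine ⟨?_, l, hl, h.symm, hx⟩
      have : I.ψ β (I.cls l) ∈ (I.pts₁ β : Set I.Δ₁) := by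
        rw [← I.ψ_range β]; exact ⟨_, rfl⟩
      rw [h]; exact this
  rw [h1, Set.ncard_coe_finset, Finset.card_biUnion]
  · have : ∀ l ∈ I.pts₂ γ, ((I.pts₀ l) ×ˢ {I.ψ β (I.cls l)} : Finset (I.Δ₀ × I.Δ₁)).card =
        I.k₀ := by
      intro l _
      rw [Finset.card_product, I.card₀, Finset.card_singleton, mul_one]
    rw [Finset.sum_congr rfl this, Finset.sum_const, I.card₂, smul_eq_mul]
  · intro l hl l' hl' hne
    rw [Function.onFun, Finset.disjoint_left]
    rintro ⟨x, j⟩ h h'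
    simp only [Finset.mem_product, Finset.mem_singleton] at h h'
    exact hne (I.group₂ γ l hl l' hl' (I.ψ_inj β (h.2.symm.trans h'.2)))

/-- in the input of the construction, `k₀` divides `v₀` as soon as there is a parallel class -/
theorem Input.k₀_dvd (I : Input) (c : Fin I.r) : I.k₀ ∣ Fintype.card I.Δ₀ := by
  classical
  have h1 : (Finset.univ : Finset I.Δ₀) =
      (Finset.univ.filter (fun l => I.cls l = c)).biUnion I.pts₀ := by
    ext x
    obtain ⟨l, ⟨h1, h2⟩, -⟩ := I.class_part c x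
    simp only [Finset.mem_univ, Finset.mem_biUnion, Finset.mem_filter, true_and, true_iff]
    exact ⟨l, h1, h2⟩
  have h2 : Fintype.card I.Δ₀ = I.s * I.k₀ := by
    rw [← Finset.card_univ, h1, Finset.card_biUnion]
    · rw [Finset.sum_congr rfl fun l _ => I.card₀ l, Finset.sum_const, I.class_card c,
        smul_eq_mul]
    · intro l hl l' hl' hne
      rw [Function.onFun, Finset.disjoint_left]
      intro x hx hx'
      simp only [Finset.coe_filter, Finset.mem_univ, true_and, Set.mem_ofPred_eq] at hl hl'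
      exact hne ((I.class_part c x).unique ⟨hl, hx⟩ ⟨hl', hx'⟩)
  exact ⟨I.s, by rw [h2, mul_comm]⟩

theorem Input.r_le (I : Input) (β : I.L₁) : I.r ≤ Fintype.card I.Δ₁ := by
  rw [← I.card₁ β]
  exact Finset.card_le_univ _

/-- A design with `15` points all of whose blocks have size `8` does not arise. -/
theorem not_arises {X : Type} [Fintype X] (𝓑 : Finset (Finset X)) (hX : Fintype.card X = 15)
    (h8 : ∀ B ∈ 𝓑, B.card = 8) (hne : 𝓑.Nonempty) : ¬ Arises 𝓑 := by
  classical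
  rintro ⟨I, hv₀, hv₁, e, he⟩
  obtain ⟨B, hB⟩ := hne
  have h1 : e '' (B : Set X) ∈ {S | ∃ β γ, S = I.block β γ} := by
    rw [← he]; exact ⟨B, hB, rfl⟩
  obtain ⟨β, γ, h1⟩ := h1
  have h2 := I.block_ncard β γ
  rw [← h1, Set.ncard_image_of_injective _ e.injective, Set.ncard_coe_finset, h8 B hB] at h2
  have h3 : Fintype.card I.Δ₀ * Fintype.card I.Δ₁ = 15 := by
    rw [← Fintype.card_prod, ← Fintype.card_congr e, hX]
  have h4 := I.r_le β
  have h5 := I.k₂_le
  rw [Nat.card_eq_fintype_card] at hv₀ hv₁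
  have h6 : 0 < I.r := by
    rcases Nat.eq_zero_or_pos I.r with h | h
    · have : I.k₂ = 0 := by omega
      rw [this] at h2; omega
    · exact h
  have h7 := I.k₀_dvd ⟨0, h6⟩
  have h8 : I.k₀ ∣ 8 := ⟨I.k₂, by rw [h2, mul_comm]⟩
  have h9 : I.k₀ ∣ 15 := h7.trans ⟨_, h3.symm⟩
  have h10 : I.k₀ = 1 := by
    have := Nat.dvd_gcd h8 h9
    simpa using this
  rw [h10, mul_one] at h2
  have h11 : 8 ≤ Fintype.card I.Δ₁ := by omega
  nlinarith

/-! ## The design -/

/-- the points: exponents of a primitive element of the field with `16` elements -/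
abbrev Pt : Type := ZMod 15

/-- the base block: the complement of a plane of `PG(3,2)` -/
def D : Finset Pt := {3, 6, 7, 9, 11, 12, 13, 14}

/-- the translate `D + j` -/
def blk (j : Pt) : Finset Pt := D.image (· + j)

/-- the blocks: all translates of `D` -/
def 𝓓 : Finset (Finset Pt) := Finset.univ.image blk

theorem mem_blk (j x : Pt) : x ∈ blk j ↔ x - j ∈ D := by
  simp only [blk, Finset.mem_image]
  constructor
  · rintro ⟨y, hy, rfl⟩
    simpa using hy
  · intro h
    exact ⟨x - j, h, by ring⟩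

theorem blk_injective : Function.Injective blk := by
  have key : ∀ i j : Pt, (∀ x : Pt, x - i ∈ D ↔ x - j ∈ D) → i = j := by decide +kernel
  intro i j h
  refine key i j fun x => ?_
  rw [← mem_blk, ← mem_blk, h]

theorem card_blocks : 𝓓.card = 15 := by
  rw [𝓓, Finset.card_image_of_injective _ blk_injective]
  simp [Pt, ZMod.card]

theorem design : IsTwoDesign 𝓓 15 8 4 := by
  refine ⟨by simp [Pt, ZMod.card], ?_, ?_⟩
  · intro B hB
    simp only [𝓓, Finset.mem_image, Finset.mem_univ, true_and] at hB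
    obtain ⟨j, rfl⟩ := hB
    rw [blk, Finset.card_image_of_injective _ (add_left_injective j)]
    decide
  · intro x y hxy
    rw [𝓓, Finset.filter_image, Finset.card_image_of_injective _ blk_injective]
    simp only [mem_blk]
    revert x y
    decide +kernel

/-- the automorphisms preserving congruence modulo `5` (the partition into the `𝔽₄`-lines) -/
def G : Subgroup (Equiv.Perm Pt) where
  carrier := {g | IsAut 𝓓 g ∧ ∀ x y : Pt, (∃ k : Pt, x - y = 5 * k) ↔ ∃ k : Pt, g x - g y = 5 * k}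
  mul_mem' := by
    rintro a b ⟨ha1, ha2⟩ ⟨hb1, hb2⟩
    refine ⟨fun B => ?_, fun x y => ?_⟩
    · rw [hb1 B, ha1 (B.image b), Finset.image_image]
      rfl
    · rw [hb2 x y, ha2 (b x) (b y)]
      rfl
  one_mem' := by
    refine ⟨fun B => ?_, fun x y => Iff.rfl⟩
    simp
  inv_mem' := by
    rintro a ⟨ha1, ha2⟩
    refine ⟨fun B => ?_, fun x y => ?_⟩
    · rw [ha1 (B.image (a⁻¹ : Equiv.Perm Pt)), Finset.image_image]
      have : (a : Pt → Pt) ∘ ((a⁻¹ : Equiv.Perm Pt) : Pt → Pt) = id := by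
        ext x; simp
      rw [this, Finset.image_id]
    · rw [ha2 (a⁻¹ x) (a⁻¹ y)]
      simp

/-- eight elements of `ΓL(2,4)` fixing `D`, as functions on exponents -/
def tab : Fin 8 → Fin 15 → Pt :=
  ![![0, 1, 2, 3, 4, 5, 6, 7, 8, 9, 10, 11, 12, 13, 14],
    ![0, 2, 4, 6, 8, 10, 12, 14, 1, 3, 5, 7, 9, 11, 13],
    ![0, 1, 8, 7, 4, 10, 11, 3, 2, 14, 5, 6, 13, 12, 9],
    ![0, 8, 1, 9, 2, 10, 3, 11, 4, 12, 5, 13, 6, 14, 7],
    ![0, 8, 4, 11, 2, 5, 13, 9, 1, 7, 10, 3, 14, 6, 12],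
    ![0, 4, 8, 12, 1, 5, 9, 13, 2, 6, 10, 14, 3, 7, 11],
    ![0, 4, 2, 13, 1, 10, 14, 12, 8, 11, 5, 9, 7, 3, 6],
    ![0, 2, 1, 14, 8, 5, 7, 6, 4, 13, 10, 12, 11, 9, 3]]

theorem tab_bij : ∀ i : Fin 8, Function.Injective (tab i) := by
  unfold Function.Injective
  decide +kernel

/-- the permutation given by a row of the table -/
noncomputable def tabPerm (i : Fin 8) : Equiv.Perm Pt :=
  Equiv.ofBijective (tab i) (Finite.injective_iff_bijective.1 (tab_bij i))

theorem tabPerm_apply (i : Fin 8) (x : Pt) : tabPerm i x = tab i x := rfl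

theorem isAut_of_maps (p : Equiv.Perm Pt) (h : ∀ j, (blk j).image p ∈ 𝓓) : IsAut 𝓓 p := by
  have hsub : 𝓓.image (Finset.image p) ⊆ 𝓓 := by
    intro B hB
    simp only [𝓓, Finset.mem_image, Finset.mem_univ, true_and] at hB
    obtain ⟨C, ⟨j, rfl⟩, rfl⟩ := hB
    exact h j
  have hinj : Function.Injective (Finset.image p) := Finset.image_injective p.injective
  have heq : 𝓓.image (Finset.image p) = 𝓓 :=
    Finset.eq_of_subset_of_card_le hsub (by rw [Finset.card_image_of_injective _ hinj])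
  intro B
  constructor
  · intro hB
    rw [← heq]
    exact Finset.mem_image_of_mem _ hB
  · intro hB
    rw [← heq, Finset.mem_image] at hB
    obtain ⟨C, hC, hCB⟩ := hB
    rwa [← hinj hCB]

theorem tab_maps : ∀ i : Fin 8, ∀ j : Pt, ∃ j' : Pt, ∀ x : Pt, x - j ∈ D ↔ tab i x - j' ∈ D := by
  decide +kernel

theorem image_blk (p : Equiv.Perm Pt) (j j' : Pt) (h : ∀ x, x - j ∈ D ↔ p x - j' ∈ D) :
    (blk j).image p = blk j' := by
  ext y
  rw [mem_blk]
  simp only [Finset.mem_image, mem_blk]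
  constructor
  · rintro ⟨x, hx, rfl⟩
    exact (h x).1 hx
  · intro hy
    refine ⟨p.symm y, (h _).2 ?_, by simp⟩
    simpa using hy

theorem tab_mod : ∀ i : Fin 8, ∀ x y : Pt,
    (∃ k : Pt, x - y = 5 * k) ↔ ∃ k : Pt, tab i x - tab i y = 5 * k := by
  decide +kernel

theorem tabPerm_mem (i : Fin 8) : tabPerm i ∈ G := by
  refine ⟨isAut_of_maps _ fun j => ?_, tab_mod i⟩
  obtain ⟨j', hj'⟩ := tab_maps i j
  rw [image_blk (tabPerm i) j j' hj']
  exact Finset.mem_image_of_mem _ (Finset.mem_univ _)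

theorem rot_mem (j : Pt) : Equiv.addRight j ∈ G := by
  refine ⟨isAut_of_maps _ fun i => ?_, fun x y => ?_⟩
  · rw [image_blk (Equiv.addRight j) i (i + j) fun x => ?_]
    · exact Finset.mem_image_of_mem _ (Finset.mem_univ _)
    · simp
  · simp

theorem tab_zero : ∀ i : Fin 8, ∀ x : Pt, x - 0 ∈ D ↔ tab i x - 0 ∈ D := by
  decide +kernel

theorem tab_trans : ∀ x ∈ D, ∃ i : Fin 8, tab i 3 = x := by
  decide +kernel

/-- every flag is the image of the flag `(3, D)` -/
theorem flag_base (x : Pt) (B : Finset Pt) (hB : B ∈ 𝓓) (hx : x ∈ B) :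
    ∃ g ∈ G, g 3 = x ∧ (blk 0).image g = B := by
  simp only [𝓓, Finset.mem_image, Finset.mem_univ, true_and] at hB
  obtain ⟨j, rfl⟩ := hB
  rw [mem_blk] at hx
  obtain ⟨i, hi⟩ := tab_trans _ hx
  refine ⟨Equiv.addRight j * tabPerm i, G.mul_mem (rot_mem j) (tabPerm_mem i), ?_, ?_⟩
  · show tab i 3 + j = x
    rw [hi]; ring
  · refine image_blk _ 0 j fun y => ?_
    rw [tab_zero i y]
    show _ ↔ tab i y + j - j ∈ D
    simp

theorem flagTransitive : FlagTransitive 𝓓 G := by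
  intro x y B hB C hC hx hy
  obtain ⟨g, hg, hg1, hg2⟩ := flag_base x B hB hx
  obtain ⟨h, hh, hh1, hh2⟩ := flag_base y C hC hy
  refine ⟨h * g⁻¹, G.mul_mem hh (G.inv_mem hg), ?_, ?_⟩
  · rw [Equiv.Perm.mul_apply, ← hg1]
    simpa using hh1
  · rw [← hg2, Finset.image_image, ← hh2]
    congr 1
    ext z
    simp

/-- congruence modulo `5` -/
def modSetoid : Setoid Pt where
  r x y := ∃ k : Pt, x - y = 5 * k
  iseqv := by
    refine ⟨fun x => ⟨0, by simp⟩, ?_, ?_⟩
    · rintro x y ⟨k, hk⟩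
      exact ⟨-k, by rw [mul_neg, ← hk]; ring⟩
    · rintro x y z ⟨k, hk⟩ ⟨l, hl⟩
      exact ⟨k + l, by rw [mul_add, ← hk, ← hl]; ring⟩

theorem imprimitive : PointImprimitive G := by
  refine ⟨modSetoid, ?_, ?_, fun g hg x y => hg.2 x y⟩
  · intro h
    have h1 : modSetoid.r 5 0 := ⟨1, by decide⟩
    rw [h] at h1
    have h2 : (5 : Pt) = 0 := h1
    exact absurd h2 (by decide)
  · intro h
    have h1 : modSetoid.r 1 0 := by rw [h]; trivial
    have h2 : ¬ ∃ k : Pt, (1 : Pt) - 0 = 5 * k := by decide +kernel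
    exact h2 h1

/-- Negative answer to Q1 of MP_14f8d9_co: a symmetric `2-(15,8,4)` design with a
flag-transitive, point-imprimitive group of automorphisms which is isomorphic to no output of
the construction with `v₀, v₁ ≥ 2`. -/
theorem result :
    ∃ (X : Type) (_ : Fintype X) (_ : DecidableEq X) (𝓑 : Finset (Finset X))
      (H : Subgroup (Equiv.Perm X)),
      IsTwoDesign 𝓑 15 8 4 ∧ 𝓑.card = 15 ∧ (∀ g ∈ H, IsAut 𝓑 g) ∧ FlagTransitive 𝓑 H ∧
        PointImprimitive H ∧ ¬ Arises 𝓑 :=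
  ⟨Pt, inferInstance, inferInstance, 𝓓, G, design, card_blocks, fun _ hg => hg.1,
    flagTransitive, imprimitive, not_arises 𝓓 design.1 design.2.1
      ⟨blk 0, Finset.mem_image_of_mem _ (Finset.mem_univ _)⟩⟩

end Pool.Agent.Results.MP_14f8d9_co.NotFromProduct
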